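import Mathlib
import Pool.Agent.W993.MC.Stm

set_option autoImplicit false

open Filter Topology

namespace Pool.Agent.W668.MC.Low

open Pool.Agent.W993.MC

theorem norm_of_sq {z : ℂ} (h : z ^ 2 = 1) : ‖z‖ ≤ 1 := by
  have h1 : ‖z‖ ^ 2 = 1 := by rw [← norm_pow, h, norm_one]
  have h2 := norm_nonneg z
  nlinarith

theorem lim_mem (hcv : S_CV) (w : ℕ) (L : List (ℕ × ℂ)) (hL : Adm 2 w L) :
    ∃ v ∈ Zsp 2 w, Tendsto (S L) atTop (𝓝 v) := by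
  obtain ⟨hne, hall, hsum, hhead⟩ := hL
  match L, hne, hall, hsum, hhead with
  | (a, z) :: L', hne, hall, hsum, hhead =>
    have h0 := hall (a, z) (by simp)
    have hz : ‖z‖ ≤ 1 := norm_of_sq h0.2
    have hne1 : (a, z) ≠ (1, 1) := by
      intro h
      apply hhead
      simp [h]
    obtain ⟨v, hv⟩ := hcv a z L' h0.1 hz hne1 (by
      intro p hp
      have := hall p (by simp [hp])
      exact ⟨this.1, norm_of_sq this.2⟩)
    exact ⟨v, Submodule.subset_span ⟨(a, z) :: L', ⟨hne, hall, hsum, hhead⟩, hv⟩, hv⟩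

theorem list_lim (hcv : S_CV) (w : ℕ) (Ls : List (List (ℕ × ℂ))) (h : ∀ L ∈ Ls, Adm 2 w L) :
    ∃ v ∈ Zsp 2 w, Tendsto (fun M => (Ls.map (fun K => S K M)).sum) atTop (𝓝 v) := by
  induction Ls with
  | nil => exact ⟨0, Submodule.zero_mem _, by simp⟩
  | cons L Ls ih =>
    obtain ⟨v, hv, hv'⟩ := ih (fun K hK => h K (by simp [hK]))
    obtain ⟨u, hu, hu'⟩ := lim_mem hcv w L (h L (by simp))
    refine ⟨u + v, Submodule.add_mem _ hu hv, ?_⟩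
    simp only [List.map_cons, List.sum_cons]
    exact hu'.add hv'

theorem mem (hexp : S_EXP) (hcv : S_CV) (habel : S_ABEL) (hp : S_P) (k j : ℕ)
    (h : 1 ≤ k + 2 * j) :
    ((Real.log 2 : ℝ) : ℂ) ^ k * ((Real.pi : ℝ) : ℂ) ^ (2 * j) ∈ Zsp 2 (k + 2 * j) := by
  obtain ⟨Ls, hLs, hS⟩ := hexp k j h
  obtain ⟨u, hu, hu'⟩ := list_lim hcv _ Ls hLs
  have h1 : Tendsto (S [(1, -1)]) atTop (𝓝 (-((Real.log 2 : ℝ) : ℂ))) := by
    have := habel 0 (-1) (by simp) (by norm_num)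
    have e : (-Complex.log (1 - (-1 : ℂ))) ^ (0 + 1) / (((0 + 1).factorial : ℕ) : ℂ)
        = -((Real.log 2 : ℝ) : ℂ) := by
      have : (1 - (-1 : ℂ)) = ((2 : ℝ) : ℂ) := by norm_num
      rw [this, ← Complex.ofReal_log (by norm_num)]
      simp
    rw [e] at this
    simpa using this
  have h2 : Tendsto (fun M => (S [(1, -1)] M) ^ k * (S [(2, 1)] M) ^ j) atTop
      (𝓝 ((-((Real.log 2 : ℝ) : ℂ)) ^ k * ((Real.pi : ℂ) ^ 2 / 6) ^ j)) :=
    (h1.pow k).mul (hp.1.pow j)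
  have h3 : (fun M => (S [(1, -1)] M) ^ k * (S [(2, 1)] M) ^ j)
      = (fun M => (Ls.map (fun K => S K M)).sum) := by
    funext M; exact hS M
  rw [h3] at h2
  have h4 := tendsto_nhds_unique hu' h2
  rw [h4] at hu
  have h5 := Submodule.smul_mem (Zsp 2 (k + 2 * j)) (((-1 : ℚ)) ^ k * 6 ^ j) hu
  have h6 : (((-1 : ℚ)) ^ k * 6 ^ j) • ((-((Real.log 2 : ℝ) : ℂ)) ^ k * ((Real.pi : ℂ) ^ 2 / 6) ^ j)
      = ((Real.log 2 : ℝ) : ℂ) ^ k * ((Real.pi : ℝ) : ℂ) ^ (2 * j) := by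
    rw [Algebra.smul_def]
    simp only [map_mul, map_pow, map_neg, map_one, map_ofNat]
    rw [div_pow, neg_pow ((Real.log 2 : ℝ) : ℂ) k, pow_mul]
    have h7 : ((-1 : ℂ)) ^ k * (-1) ^ k = 1 := by
      rw [← mul_pow]; simp
    have h8 : (6 : ℂ) ^ j ≠ 0 := pow_ne_zero _ (by norm_num)
    have h9 : ((-1 : ℂ)) ^ k * 6 ^ j * ((-1) ^ k * ((Real.log 2 : ℝ) : ℂ) ^ k * (((Real.pi : ℂ) ^ 2) ^ j / 6 ^ j))
        = ((-1) ^ k * (-1) ^ k) * (6 ^ j / 6 ^ j) * (((Real.log 2 : ℝ) : ℂ) ^ k * ((Real.pi : ℂ) ^ 2) ^ j) := by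
      ring
    rw [h9, h7, div_self h8]
    ring
  rw [h6] at h5
  exact h5

theorem low (hexp : S_EXP) (hcv : S_CV) (habel : S_ABEL) (hp : S_P) (hli : S_LI) : S_LOW := by
  intro w hw
  have hmem : ∀ j : Fin (w / 2 + 1),
      ((Real.log 2 : ℝ) : ℂ) ^ (w - 2 * (j : ℕ)) * ((Real.pi : ℝ) : ℂ) ^ (2 * (j : ℕ)) ∈ Zsp 2 w := by
    intro j
    have hj : 2 * (j : ℕ) ≤ w := by omega
    have e : (w - 2 * (j : ℕ)) + 2 * (j : ℕ) = w := by omega
    have := mem hexp hcv habel hp (w - 2 * (j : ℕ)) (j : ℕ) (by omega)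
    rwa [e] at this
  let v : Fin (w / 2 + 1) → Zsp 2 w := fun j => ⟨_, hmem j⟩
  have hv : LinearIndependent ℚ v := by
    apply LinearIndependent.of_comp (Zsp 2 w).subtype
    exact hli w
  have := hv.cardinal_le_rank
  simpa using this

end Pool.Agent.W668.MC.Low
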